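import Pool.Agent.Helper706.JD.Final

set_option autoImplicit false

open scoped Topology ContDiff
open Set Filter Complex

namespace Pool.Agent.Results.MP_51bf1a_an.JetDet

/-- Finite jet determination of local automorphisms of real-analytic generic submanifolds
(question of Baouendi, Ebenfelt and Rothschild).
(1) If `M` is connected, holomorphically nondegenerate and of finite type at some point, then at
every point `p` of `M` (of finite type or not) the local automorphisms fixing `p` are determined by
their `k`-jets for some `k`.
(2) In particular this holds at every point of every connected holomorphically nondegenerate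
real-analytic hypersurface of `ℂᴺ`, `N ≥ 2`.
(3) In higher codimension the hypothesis that `M` be of finite type somewhere cannot be dropped:
the submanifold `{Im z₁ = |z₀|², Im z₂ = 0}` of `ℂ³` is holomorphically nondegenerate, and at none of
its points are the local automorphisms determined by finite jets. -/
theorem result :
    (∀ (N d : ℕ) (M : Set (Fin N → ℂ)), IsGenericSubmanifold d M → IsConnected M →
      HolomorphicallyNondegenerate d M → (∃ q ∈ M, FiniteTypeAt d M q) →
      ∀ p ∈ M, ∃ k, DeterminedByJets M p k) ∧
    (∀ (N : ℕ) (M : Set (Fin N → ℂ)), 2 ≤ N → IsGenericSubmanifold 1 M → IsConnected M →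
      HolomorphicallyNondegenerate 1 M → ∀ p ∈ M, ∃ k, DeterminedByJets M p k) ∧
    (∃ M : Set (Fin 3 → ℂ), IsGenericSubmanifold 2 M ∧ IsConnected M ∧
      HolomorphicallyNondegenerate 2 M ∧ ∀ p ∈ M, ∀ k, ¬ DeterminedByJets M p k) := by
  refine ⟨fun N d M hM hc hH hF => determined hM hc hH hF, fun N M hN hM hc hH => ?_,
    CEx.counterexample⟩
  exact determined hM hc hH (ft_of_hypersurface hN hM hc.nonempty hH)

end Pool.Agent.Results.MP_51bf1a_an.JetDet
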